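import Pool.Agent.Lib_helper36.SRC.Scheme

set_option autoImplicit false

/-! # Case (IIIB): the algebra (certificate of helper83) -/

namespace Pool.Agent.Lib_helper36.SRC

open PowerSeries

namespace RT

lemma size_eta (W : RT) : size W = sizeL W.kids + 1 := by
  conv_lhs => rw [← eta W, size_node]

/-- `J` through `w` with two half-edges: `ψ` is arbitrary, `w = t W`, `u = t U`. -/
lemma J_cert_identity (e u r ψ a m b l y : ℝ⟦X⟧) (he : 2 * e = 1) :
    e * (a * b + (a - 2 * u * (y * m)) * (b + 2 * r * (y * l)))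
      = ψ * (b + e * r * (y * l)) + (a - 3 * e * ψ) * (b + r * (y * l))
        + (e * ψ - u * (y * m)) * (b + 2 * r * (y * l)) := by
  linear_combination (a * b + a * r * y * l - u * y * m * b - 2 * u * r * y ^ 2 * m * l + b * ψ)
    * he

/-- **(IIIB), the algebra.**  `β = t W / 2 - t U`; the only hypothesis is
`(1 + β y) A_U - (3/2) (t W) y N_U ∈ W (β_U + t_U - t_W)`. -/
theorem goodJ_IIIB {n : ℕ} (hn : GoodUpTo n) (U W : RT) (hs : size U + size W ≤ n + 1)
    (ht : 2 * t U ≤ t W)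
    (hZ : InW (β U + t U - t W) ((1 + C (t W / 2 - t U) * (X - 1)) * A U
      - C (3 / 2 * t W) * ((X - 1) * N U))) : GoodJ U W := by
  have hU0 := t_pos U
  have hW0 := t_pos W
  have hU1 := t_le_half U
  have hW1 := t_le_half W
  have hsU := size_pos U
  have hsW := size_pos W
  -- `w` with two half-edges
  have hW2 : InW (β W + t W / 2) (B W + C (t W / 2) * ((X - 1) * N W)) := by
    have h1 := hn.H (node (W.hh + 1) W.kids) (by
      rw [size_node]; have := size_eta W; omega)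
    have e1 : t (node (W.hh + 1) W.kids) = t W / 2 := by
      have := t_succ W.hh W.kids
      rw [eta] at this; linarith
    have e2 : β (node (W.hh + 1) W.kids) = β W := by rw [β_hh _ W.hh, eta]
    rw [e1, e2] at h1
    refine h1.congr rfl ?_
    unfold H
    rw [e1, B_hh _ W.hh, N_hh _ W.hh, eta]
  set u := t U with hu
  set r := t W with hr
  set τ := u / r with hτ
  have hτ0 : 0 < τ := by positivity
  have hτr : τ * r = u := by rw [hτ]; field_simp
  have hτ1 : 2 * τ ≤ 1 := by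
    rw [hτ, ← mul_div_assoc, div_le_one hW0]; exact ht
  -- `ψ = (4/3) τ (1 + β y) A_U`
  set ψ : ℝ⟦X⟧ := C (4 / 3 * τ) * ((1 + C (r / 2 - u) * (X - 1)) * A U) with hψ
  have two : (C (2 : ℝ) : ℝ⟦X⟧) = 2 := by
    rw [show (2 : ℝ) = ((2 : ℕ) : ℝ) by norm_num, map_natCast]; norm_num
  have three : (C (3 : ℝ) : ℝ⟦X⟧) = 3 := by
    rw [show (3 : ℝ) = ((3 : ℕ) : ℝ) by norm_num, map_natCast]; norm_num
  have he : 2 * (C (1 / 2 : ℝ) : ℝ⟦X⟧) = 1 := by rw [← two, ← map_mul]; norm_num
  -- the three pieces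
  have k1 : A U - 3 * C (1 / 2) * ψ = C (1 - 2 * τ) * ((1 + C (-u) * (X - 1)) * A U) := by
    have f1 : 3 * C (1 / 2) * (C (4 / 3 * τ) : ℝ⟦X⟧) = C (2 * τ) := by
      rw [← three, ← map_mul, ← map_mul]; congr 1; ring
    have f2 : (C (2 * τ) : ℝ⟦X⟧) * C (r / 2 - u) = C (1 - 2 * τ) * C u := by
      rw [← map_mul, ← map_mul]; congr 1
      rw [← hτr]; ring
    have f3 : (C (1 - 2 * τ) : ℝ⟦X⟧) = 1 - C (2 * τ) := by rw [map_sub, map_one]
    have f4 : (C (-u) : ℝ⟦X⟧) = - C u := by rw [map_neg]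
    rw [f4, hψ]
    rw [f3] at f2 ⊢
    linear_combination (-((1 + C (r / 2 - u) * (X - 1)) * A U)) * f1 - ((X - 1) * A U) * f2
  have k2 : C (1 / 2) * ψ - C u * ((X - 1) * N U)
      = C (2 / 3 * τ) * ((1 + C (r / 2 - u) * (X - 1)) * A U
        - C (3 / 2 * r) * ((X - 1) * N U)) := by
    have f1 : C (1 / 2) * (C (4 / 3 * τ) : ℝ⟦X⟧) = C (2 / 3 * τ) := by
      rw [← map_mul]; congr 1; ring
    have f2 : (C (2 / 3 * τ) : ℝ⟦X⟧) * C (3 / 2 * r) = C u := by
      rw [← map_mul]; congr 1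
      rw [← hτr]; ring
    rw [hψ]
    linear_combination ((1 + C (r / 2 - u) * (X - 1)) * A U) * f1 + ((X - 1) * N U) * f2
  have key : J U W = C (4 / 3 * τ) * (((1 + C (r / 2 - u) * (X - 1)) * A U) *
        (B W + C (r / 2) * ((X - 1) * N W)))
      + C (1 - 2 * τ) * (((1 + C (-u) * (X - 1)) * A U) * H W)
      + C (2 / 3 * τ) * (((1 + C (r / 2 - u) * (X - 1)) * A U
          - C (3 / 2 * r) * ((X - 1) * N U)) * A W) := by
    have eH : H W = B W + C r * ((X - 1) * N W) := rfl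
    have eA : A W = B W + 2 * C r * ((X - 1) * N W) := by
      rw [← two, ← map_mul]; rfl
    have eB : B U = A U - 2 * C u * ((X - 1) * N U) := by
      rw [← two, ← map_mul]
      have eU : A U = B U + C (2 * u) * ((X - 1) * N U) := rfl
      rw [eU]; ring
    have f4 : (C (r / 2) : ℝ⟦X⟧) = C (1 / 2) * C r := by rw [← map_mul]; congr 1; ring
    have id := J_cert_identity (C (1 / 2)) (C u) (C r) ψ (A U) (N U) (B W) (N W) (X - 1) he
    unfold J
    rw [f4, ← mul_assoc, ← mul_assoc (C (1 - 2 * τ)), ← k1, ← mul_assoc (C (2 / 3 * τ)), ← k2,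
      eH, eA, eB]
    exact id
  unfold GoodJ
  rw [key]
  refine ((InW.add ?_ ?_).add ?_)
  · apply InW.smul (by positivity)
    refine (((InW.coin (by linarith)).mul (hn.A U (by omega))).mul hW2).congr ?_ rfl
    unfold mJ α; ring
  · apply InW.smul (by linarith)
    refine (((InW.coin (by linarith)).mul (hn.A U (by omega))).mul (hn.H W (by omega))).congr ?_ rfl
    unfold mJ α; ring
  · apply InW.smul (by positivity)
    refine (hZ.mul (hn.A W (by omega))).congr ?_ rfl
    unfold mJ α; ring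

end RT

end Pool.Agent.Lib_helper36.SRC
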