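import Pool.Agent.Lib_helper13.GC6.AlgIIIB

set_option autoImplicit false

/-! # Case (IIIB) for honest stars: from the scalar statement `StatZH` -/

namespace Pool.Agent.Lib_helper13.GC6

open PowerSeries Pool.Agent.Lib_helper36.SRC Pool.Agent.Lib_helper36.SRC.RT

/-- `κ = 1 + y / 2` -/
noncomputable def kap : ℝ⟦X⟧ := 1 + C (1 / 2 : ℝ) * (X - 1)

/-- `∏ (κ ^ l + 2 ^ (-(l+1)) y)` -/
noncomputable def HD (ls : List ℕ) : ℝ⟦X⟧ :=
  (ls.map (fun l => kap ^ l + C ((1 / 2 : ℝ) ^ (l + 1)) * (X - 1))).prod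

/-- `∏ κ ^ l` -/
noncomputable def HN (ls : List ℕ) : ℝ⟦X⟧ := (ls.map (fun l => kap ^ l)).prod

/-- the mean of `HD` -/
noncomputable def HM (ls : List ℕ) : ℝ := (ls.map (fun l : ℕ => (l : ℝ) / 2 + (1 / 2) ^ (l + 1))).sum

/-- **The scalar statement (Z) for honest stars**: `u = t_U`, `r = t_W`, `β = r / 2 - u`,
`Z = (1 + β y) (D + 2 u y N) - (3 / 2) r y N`. -/
noncomputable def ZH (u r : ℝ) (ls : List ℕ) : ℝ⟦X⟧ :=
  (1 + C (r / 2 - u) * (X - 1)) * (HD ls + C (2 * u) * ((X - 1) * HN ls))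
    - C (3 / 2 * r) * ((X - 1) * HN ls)

def StatZH : Prop := ∀ (h : ℕ) (ls : List ℕ) (u r : ℝ), ls ≠ [] →
  (∀ l ∈ ls, h + ls.length + 1 ≤ l) → u = (1 / 2) ^ (h + ls.length + 1) →
  (∃ k : ℕ, r = (1 / 2) ^ (k + 2)) → 2 * u ≤ r → InW (HM ls + u - r) (ZH u r ls)

/-- the honest star -/
def hon (l : ℕ) : RT := node 0 (List.replicate l (node 0 []))

lemma t_hon (l : ℕ) : t (hon l) = (1 / 2) ^ (l + 1) := by
  unfold hon t
  simp

lemma t_leaf0 : t (node 0 []) = 1 / 2 := by
  unfold t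
  simp

lemma B_hon (l : ℕ) : B (hon l) = kap ^ l := by
  unfold hon
  induction l with
  | zero => simp
  | succ l ih =>
    rw [List.replicate_succ, B_cons, ih]
    unfold H
    rw [B_nil, N_nil, t_leaf0, mul_one, pow_succ']
    rfl

lemma N_hon (l : ℕ) : N (hon l) = 1 := by
  unfold hon
  induction l with
  | zero => simp
  | succ l ih => rw [List.replicate_succ, N_cons, ih, B_nil, mul_one]

lemma β_hon (l : ℕ) : β (hon l) = (l : ℝ) / 2 := by
  unfold hon
  induction l with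
  | zero => simp
  | succ l ih =>
    rw [List.replicate_succ, β_cons, ih, β_nil, t_leaf0]
    push_cast
    ring

lemma H_hon (l : ℕ) : H (hon l) = kap ^ l + C ((1 / 2 : ℝ) ^ (l + 1)) * (X - 1) := by
  unfold H
  rw [B_hon, N_hon, t_hon, mul_one]

lemma B_honF (h : ℕ) (ls : List ℕ) : B (node h (ls.map hon)) = HD ls := by
  induction ls with
  | nil => rw [List.map_nil, B_nil]; simp [HD]
  | cons l ls ih =>
    rw [List.map_cons, B_cons, ih, H_hon]
    simp only [HD, List.map_cons, List.prod_cons]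

lemma N_honF (h : ℕ) (ls : List ℕ) : N (node h (ls.map hon)) = HN ls := by
  induction ls with
  | nil => rw [List.map_nil, N_nil]; simp [HN]
  | cons l ls ih =>
    rw [List.map_cons, N_cons, ih, B_hon]
    simp only [HN, List.map_cons, List.prod_cons]

lemma β_honF (h : ℕ) (ls : List ℕ) : β (node h (ls.map hon)) = HM ls := by
  induction ls with
  | nil => rw [List.map_nil, β_nil]; simp [HM]
  | cons l ls ih =>
    rw [List.map_cons, β_cons, ih, β_hon, t_hon]
    simp only [HM, List.map_cons, List.sum_cons]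

lemma t_honF (h : ℕ) (ls : List ℕ) : t (node h (ls.map hon)) = (1 / 2) ^ (h + ls.length + 1) := by
  unfold t
  rw [kids_node, List.length_map]
  rfl

/-- **(IIIB) for honest stars** from the scalar statement. -/
theorem goodJ_IIIBH_of_StatZH (hZ : StatZH) {n : ℕ} (hn : GoodUpTo n) (h : ℕ) (ls : List ℕ)
    (W : RT) (hs : size (node h (ls.map hon)) + size W ≤ n + 1) (hne : ls ≠ [])
    (hls : ∀ l ∈ ls, 2 * t (hon l) ≤ t (node h (ls.map hon))) (hW : ¬ IsLeaf W)
    (ht : 2 * t (node h (ls.map hon)) ≤ t W) : GoodJ (node h (ls.map hon)) W := by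
  apply goodJ_IIIB hn _ _ hs ht
  have h1 := hZ h ls (t (node h (ls.map hon))) (t W) hne
    (by
      intro l hl
      have h2 := hls l hl
      rw [t_hon, t_honF] at h2
      by_contra hcon
      push Not at hcon
      have h3 : (1 / 2 : ℝ) ^ (h + ls.length + 1) ≤ (1 / 2) ^ (l + 1) :=
        pow_le_pow_of_le_one (by norm_num) (by norm_num) (by omega)
      have h4 : (0 : ℝ) < (1 / 2) ^ (l + 1) := by positivity
      linarith)
    (t_honF h ls)
    (by
      have : W.kids ≠ [] := hW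
      obtain ⟨m, hm⟩ : ∃ m, W.kids.length = m + 1 :=
        ⟨W.kids.length - 1, by have := List.length_pos_of_ne_nil this; omega⟩
      exact ⟨W.hh + m, by unfold t; rw [hm]; congr 1⟩)
    ht
  refine h1.congr ?_ ?_
  · rw [β_honF]
  · unfold ZH A
    rw [B_honF, N_honF]

end Pool.Agent.Lib_helper13.GC6
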