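import Pool.Agent.Lib_helper13.GC6.DefR

set_option autoImplicit false

/-! # (IIIB), two or more children: the certificate and the reduction to parts (A), (B) -/

namespace Pool.Agent.Lib_helper13.GC6

open PowerSeries Pool.Agent.Lib_helper36.SRC Pool.Agent.Lib_helper36.SRC.RT

lemma C_two : (C (2 : ℝ) : ℝ⟦X⟧) = 2 := by
  rw [show (2 : ℝ) = ((2 : ℕ) : ℝ) by norm_num, map_natCast]; norm_num

lemma two_C_half : 2 * (C (1 / 2 : ℝ) : ℝ⟦X⟧) = 1 := by
  rw [← C_two, ← map_mul]; norm_num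

/-- **The certificate**: `J = (τ/2) G B_W + (A_U - τ G) H_W + (τ/2) V A_W`,
`V = G - 2 t_W y N_U`, `τ t_W = t_U`, for every `G`. -/
theorem goodJ_cert2 {n : ℕ} (hn : GoodUpTo n) (U W : RT) (hs : size U + size W ≤ n + 1)
    (τ : ℝ) (hτ : 0 ≤ τ) (hτt : τ * t W = t U) (G : ℝ⟦X⟧)
    (hG : InW (β U + t U + t W) G)
    (hV : InW (β U + t U - t W) (G - C (2 * t W) * ((X - 1) * N U)))
    (hB : InW (β U + t U) (A U - C τ * G)) : GoodJ U W := by
  have hsU := size_pos U
  have hsW := size_pos W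
  have key : J U W = C (τ / 2) * (G * B W) + (A U - C τ * G) * H W
      + C (τ / 2) * ((G - C (2 * t W) * ((X - 1) * N U)) * A W) := by
    have eH : H W = B W + C (t W) * ((X - 1) * N W) := rfl
    have eA : A W = B W + C (2 * t W) * ((X - 1) * N W) := rfl
    have eU : A U = B U + C (2 * t U) * ((X - 1) * N U) := rfl
    have eB : B U = A U - C (2 * t U) * ((X - 1) * N U) := by rw [eU]; ring
    unfold J
    rw [eH, eA, eB, ← hτt]
    have f1 : (C (τ / 2) : ℝ⟦X⟧) = C (1 / 2) * C τ := by rw [← map_mul]; congr 1; ring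
    have f2 : (C (2 * (τ * t W)) : ℝ⟦X⟧) = 2 * (C τ * C (t W)) := by
      rw [map_mul, map_mul, C_two]
    have f3 : (C (2 * t W) : ℝ⟦X⟧) = 2 * C (t W) := by rw [map_mul, C_two]
    rw [f1, f2, f3]
    have g := two_C_half
    generalize (C (1 / 2 : ℝ) : ℝ⟦X⟧) = e at *
    generalize (C τ : ℝ⟦X⟧) = T
    generalize (C (t W) : ℝ⟦X⟧) = R
    generalize A U = a
    generalize N U = m
    generalize B W = b
    generalize N W = l
    generalize (X - 1 : ℝ⟦X⟧) = y
    linear_combination (a * b - T * G * b + a * R * y * l - T * G * R * y * l) * g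
  unfold GoodJ
  rw [key]
  refine ((InW.add ?_ ?_).add ?_)
  · apply InW.smul (by positivity)
    refine (hG.mul (hn.B W (by omega))).congr ?_ rfl
    unfold mJ; ring
  · refine (hB.mul (hn.H W (by omega))).congr ?_ rfl
    unfold mJ; ring
  · apply InW.smul (by positivity)
    refine (hV.mul (hn.A W (by omega))).congr ?_ rfl
    unfold mJ α; ring

/-- part (A) -/
def PartA : Prop := ∀ (h q : ℕ) (Bs Cs : List ℕ) (t r : ℝ),
  2 ≤ Cs.length + Bs.length → 2 ≤ q → q ≤ h + (Cs.length + Bs.length) →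
  ((Cs = [] ∧ Bs.length ≤ q) ∨ Bs.length = q) →
  (∀ l ∈ Cs ++ Bs, h + (Cs.length + Bs.length) + 2 ≤ l) →
  t = (1 / 2) ^ (h + (Cs.length + Bs.length) + 1) → r = (1 / 2) ^ q →
  InW (HM Cs + HM Bs + t - r)
    (HR Cs * (HD Bs + C r * ((X - 1) * HN Bs)) * (1 + C t * (X - 1))
      - C (2 * r) * ((X - 1) * (HN Cs * HN Bs)))

/-- part (B) -/
def PartB : Prop := ∀ (h : ℕ) (Bs Cs : List ℕ), 2 ≤ Bs.length →
  (∀ l ∈ Cs ++ Bs, h + (Cs.length + Bs.length) + 2 ≤ l) →
  (∀ L : List ℕ, L <:+ (Cs ++ Bs) → 2 ≤ L.length →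
    InW (HM L + (1 / 2) ^ L.length) (HD L + C ((1 / 2 : ℝ) ^ L.length) * ((X - 1) * HN L))) →
  InW (HM Cs + HM Bs)
    (HD Cs * HD Bs + C ((1 / 2 : ℝ) ^ (h + (Cs.length + Bs.length))) * ((X - 1) * (HN Cs * HN Bs))
      - C ((1 / 2 : ℝ) ^ (h + Cs.length)) *
        (HR Cs * (HD Bs + C ((1 / 2 : ℝ) ^ Bs.length) * ((X - 1) * HN Bs))))

lemma t_le_quarter {W : RT} (hW : ¬ IsLeaf W) : ∃ q, 2 ≤ q ∧ t W = (1 / 2) ^ q := by
  have : W.kids ≠ [] := hW
  have h1 := List.length_pos_of_ne_nil this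
  exact ⟨W.hh + W.kids.length + 1, by omega, rfl⟩

lemma sizeL_suffix {as bs : List RT} (h : as <:+ bs) : sizeL as ≤ sizeL bs := by
  obtain ⟨cs, rfl⟩ := h
  induction cs with
  | nil => simp
  | cons c cs ih => rw [List.cons_append, sizeL_cons]; omega

lemma inW_HR (ls : List ℕ) : InW (HM ls) (HR ls) := by
  have hk : ∀ l : ℕ, InW ((l : ℝ) / 2) (kap ^ l) := by
    intro l
    induction l with
    | zero => simpa using InW.one (le_refl (0 : ℝ))
    | succ l ih =>
      have := ih.mul (InW.coin (s := 1 / 2) (by norm_num))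
      refine this.congr ?_ ?_
      · push_cast; ring
      · rw [pow_succ]; rfl
  induction ls with
  | nil => rw [HM_nil, HR_nil]; exact InW.one le_rfl
  | cons l ls ih =>
    rw [HM_cons, HR_cons]
    have hp : ((1 : ℝ) / 2) ^ (l + 1) ≤ 1 := pow_le_one₀ (by norm_num) (by norm_num)
    exact ((hk l).mul (InW.coin hp)).mul ih

/-- the function `A_B` with the weight `r` -/
lemma inW_AB {n : ℕ} (hn : GoodUpTo n) (q : ℕ) (L : List ℕ) (hL : L.length ≤ q)
    (hs : sizeL (L.map hon) + 1 ≤ n) :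
    InW (HM L + (1 / 2) ^ q) (HD L + C ((1 / 2 : ℝ) ^ q) * ((X - 1) * HN L)) := by
  have h1 := hn.A (node (q - L.length) (L.map hon)) (by rw [size_node]; exact hs)
  have h2 : t (node (q - L.length) (L.map hon)) = (1 / 2) ^ (q + 1) := by
    rw [t_honF]; congr 1; omega
  have h3 : 2 * ((1 : ℝ) / 2) ^ (q + 1) = (1 / 2) ^ q := by rw [pow_succ]; ring
  refine h1.congr ?_ ?_
  · unfold α; rw [h2, β_honF, h3]
  · unfold A; rw [h2, B_honF, N_honF, h3]

/-- **(IIIB) for honest stars, two or more children**, from parts (A) and (B). -/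
theorem goodJ_IIIBH_two (hPA : PartA) (hPB : PartB) {n : ℕ} (hn : GoodUpTo n) (h : ℕ)
    (ls : List ℕ) (W : RT) (hs : size (node h (ls.map hon)) + size W ≤ n + 1)
    (h2 : 2 ≤ ls.length) (hls : ∀ l ∈ ls, 4 * t (hon l) ≤ t (node h (ls.map hon)))
    (hW : ¬ IsLeaf W) (ht : 2 * t (node h (ls.map hon)) ≤ t W) :
    GoodJ (node h (ls.map hon)) W := by
  have hsW := size_pos W
  obtain ⟨q, hq, hr⟩ := t_le_quarter hW
  set m := ls.length with hm
  have htU : t (node h (ls.map hon)) = (1 / 2) ^ (h + m + 1) := t_honF h ls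
  have hqm : q ≤ h + m := by
    rw [htU, hr] at ht
    by_contra hcon
    push Not at hcon
    have h3 : (1 / 2 : ℝ) ^ q ≤ (1 / 2) ^ (h + m + 1) :=
      pow_le_pow_of_le_one (by norm_num) (by norm_num) (by omega)
    have h4 : (0 : ℝ) < (1 / 2) ^ (h + m + 1) := by positivity
    linarith
  have hl : ∀ l ∈ ls, h + m + 2 ≤ l := by
    intro l hl
    have h3 := hls l hl
    rw [htU, t_hon] at h3
    by_contra hcon
    push Not at hcon
    have h4 : (1 / 2 : ℝ) ^ (h + m + 2) ≤ (1 / 2) ^ (l + 1) :=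
      pow_le_pow_of_le_one (by norm_num) (by norm_num) (by omega)
    have h5 : (1 / 2 : ℝ) ^ (h + m + 2) = (1 / 2) ^ (h + m + 1) / 2 := by
      rw [pow_succ _ (h + m + 1)]; ring
    have h6 : (0 : ℝ) < (1 / 2) ^ (h + m + 1) := by positivity
    linarith
  -- the split
  obtain ⟨Cs, Bs, hCB, hcase⟩ : ∃ Cs Bs : List ℕ, ls = Cs ++ Bs ∧
      ((Cs = [] ∧ Bs.length ≤ q) ∨ Bs.length = q) := by
    rcases le_total m q with h3 | h3
    · exact ⟨[], ls, rfl, Or.inl ⟨rfl, h3⟩⟩
    · refine ⟨ls.take (m - q), ls.drop (m - q), (List.take_append_drop _ _).symm, Or.inr ?_⟩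
      rw [List.length_drop]; omega
  have hmC : m = Cs.length + Bs.length := by rw [hm, hCB, List.length_append]
  have hszU : size (node h (ls.map hon)) ≤ n := by omega
  rw [size_node] at hszU
  have hsuf : ∀ L : List ℕ, L <:+ ls → sizeL (L.map hon) + 1 ≤ n := by
    intro L hL
    have : L.map hon <:+ ls.map hon := by
      obtain ⟨K, rfl⟩ := hL
      exact ⟨K.map hon, by rw [List.map_append]⟩
    have := sizeL_suffix this
    omega
  have hBsuf : Bs <:+ ls := ⟨Cs, hCB.symm⟩
  have hBq : Bs.length ≤ q := by rcases hcase with h3 | h3 <;> omega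
  have hqt : 2 ≤ Cs.length + Bs.length := by omega
  set u : ℝ := (1 / 2) ^ (h + m + 1) with hu
  set r : ℝ := (1 / 2) ^ q with hrr
  have hu0 : 0 < u := by positivity
  have hr0 : 0 < r := by positivity
  have hu1 : u ≤ 1 := pow_le_one₀ (by norm_num) (by norm_num)
  set τ : ℝ := (1 / 2) ^ (h + m + 1 - q) with hτ
  have hτr : τ * r = u := by rw [hτ, hrr, ← pow_add]; congr 1; omega
  set G : ℝ⟦X⟧ := HR Cs * (HD Bs + C r * ((X - 1) * HN Bs)) * (1 + C u * (X - 1)) with hG
  have hAB : InW (HM Bs + r) (HD Bs + C r * ((X - 1) * HN Bs)) := inW_AB hn q Bs hBq (hsuf Bs hBsuf)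
  have hHM : HM ls = HM Cs + HM Bs := by rw [hCB, HM_append]
  have hHN : HN ls = HN Cs * HN Bs := by rw [hCB, HN_append]
  have hHD : HD ls = HD Cs * HD Bs := by rw [hCB, HD_append]
  have hAU : A (node h (ls.map hon)) = HD ls + C (2 * u) * ((X - 1) * HN ls) := by
    unfold A; rw [htU, B_honF, N_honF]
  apply goodJ_cert2 hn _ _ hs τ (by positivity) (by rw [hr, htU, hτr]) G
  · -- `G`
    rw [β_honF, htU, hr]
    refine (((inW_HR Cs).mul hAB).mul (InW.coin hu1)).congr ?_ rfl
    rw [hHM]; ring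
  · -- `V`
    rw [β_honF, htU, hr, N_honF]
    have h3 := hPA h q Bs Cs u r hqt hq (by omega) hcase
      (by rw [← hCB, ← hmC]; exact hl) (by rw [hu, hmC]) rfl
    refine h3.congr ?_ ?_
    · rw [hHM]
    · rw [hHN]
  · -- `A_U - τ G`
    rw [β_honF, htU, hAU]
    have hAUW : InW (HM ls + 2 * u) (HD ls + C (2 * u) * ((X - 1) * HN ls)) := by
      have h3 := hn.A (node h (ls.map hon)) (by rw [size_node]; exact hszU)
      refine h3.congr ?_ hAU
      unfold α; rw [htU, β_honF]
    have hbr : InW (HM ls) (HD ls + C (2 * u) * ((X - 1) * HN ls)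
        - C (2 * τ) * (HR Cs * (HD Bs + C r * ((X - 1) * HN Bs)))) := by
      rcases hcase with ⟨hC, -⟩ | hb
      · subst hC
        have e1 : HD ls + C (2 * u) * ((X - 1) * HN ls)
            - C (2 * τ) * (HR [] * (HD Bs + C r * ((X - 1) * HN Bs)))
            = C (1 - 2 * τ) * HD ls := by
          rw [hHD, hHN, HD_nil, HN_nil, HR_nil, ← hτr, map_sub, map_one, map_mul, map_mul, map_mul]
          ring
        rw [e1]
        apply InW.smul
        · have h5 : 2 * τ ≤ 1 := by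
            have h6 : h + m + 1 - q = (h + m - q) + 1 := by omega
            rw [hτ, h6, pow_succ]
            have h7 : ((1 : ℝ) / 2) ^ (h + m - q) ≤ 1 := pow_le_one₀ (by norm_num) (by norm_num)
            linarith
          linarith
        · have h3 := hn.B (node h (ls.map hon)) (by rw [size_node]; omega)
          rw [β_honF, B_honF] at h3
          exact h3
      · have h3 := hPB h Bs Cs (by omega) (by rw [← hCB, ← hmC]; exact hl)
          (by
            intro L hL _
            rw [← hCB] at hL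
            exact inW_AB hn L.length L le_rfl (hsuf L hL))
        have e1 : (2 * u : ℝ) = (1 / 2) ^ (h + (Cs.length + Bs.length)) := by
          rw [hu, hmC, pow_succ]; ring
        have e2 : (2 * τ : ℝ) = (1 / 2) ^ (h + Cs.length) := by
          have h6 : h + m + 1 - q = (h + Cs.length) + 1 := by omega
          rw [hτ, h6, pow_succ]; ring
        have e3 : r = (1 / 2) ^ Bs.length := by rw [hrr, hb]
        rw [hHM, hHD, hHN, e1, e2, e3]
        exact h3
    have e2 : HD ls + C (2 * u) * ((X - 1) * HN ls) - C τ * G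
        = C (1 / 2) * ((HD ls + C (2 * u) * ((X - 1) * HN ls)) * (1 + C (-u) * (X - 1)))
        + C (1 / 2) * ((HD ls + C (2 * u) * ((X - 1) * HN ls)
        - C (2 * τ) * (HR Cs * (HD Bs + C r * ((X - 1) * HN Bs)))) * (1 + C u * (X - 1))) := by
      rw [hG]
      have f1 : (C (2 * τ) : ℝ⟦X⟧) = 2 * C τ := by rw [map_mul, C_two]
      have f2 : (C (-u) : ℝ⟦X⟧) = - C u := by rw [map_neg]
      rw [f1, f2]
      have g := two_C_half
      generalize (C (1 / 2 : ℝ) : ℝ⟦X⟧) = e at *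
      generalize HD ls + C (2 * u) * ((X - 1) * HN ls) = a
      generalize HR Cs * (HD Bs + C r * ((X - 1) * HN Bs)) = b
      generalize (C τ : ℝ⟦X⟧) = T
      generalize (C u : ℝ⟦X⟧) = v
      generalize (X - 1 : ℝ⟦X⟧) = y
      linear_combination (-a + T * b * (1 + v * y)) * g
    rw [e2]
    refine InW.add (InW.smul (by norm_num) ?_) (InW.smul (by norm_num) ?_)
    · refine (hAUW.mul (InW.coin (by linarith))).congr ?_ rfl
      ring
    · exact hbr.mul (InW.coin hu1)

end Pool.Agent.Lib_helper13.GC6
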