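import Pool.Agent.Lib_helper13.GC6.CaseIIIBH

set_option autoImplicit false

/-! # The remaining stars in the certificate for (IIIB) -/

namespace Pool.Agent.Lib_helper13.GC6

open PowerSeries

/-- `∏ κ ^ l (1 + 2 ^ (-(l+1)) y)` -/
noncomputable def HR (ls : List ℕ) : ℝ⟦X⟧ :=
  (ls.map (fun l => kap ^ l * (1 + C ((1 / 2 : ℝ) ^ (l + 1)) * (X - 1)))).prod

lemma HR_nil : HR [] = 1 := rfl

lemma HR_cons (l : ℕ) (ls : List ℕ) :
    HR (l :: ls) = kap ^ l * (1 + C ((1 / 2 : ℝ) ^ (l + 1)) * (X - 1)) * HR ls := by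
  simp only [HR, List.map_cons, List.prod_cons]

lemma HD_nil : HD [] = 1 := rfl

lemma HD_cons (l : ℕ) (ls : List ℕ) :
    HD (l :: ls) = (kap ^ l + C ((1 / 2 : ℝ) ^ (l + 1)) * (X - 1)) * HD ls := by
  simp only [HD, List.map_cons, List.prod_cons]

lemma HD_append (as bs : List ℕ) : HD (as ++ bs) = HD as * HD bs := by
  simp only [HD, List.map_append, List.prod_append]

lemma HN_nil : HN [] = 1 := rfl

lemma HN_cons (l : ℕ) (ls : List ℕ) : HN (l :: ls) = kap ^ l * HN ls := by
  simp only [HN, List.map_cons, List.prod_cons]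

lemma HN_append (as bs : List ℕ) : HN (as ++ bs) = HN as * HN bs := by
  simp only [HN, List.map_append, List.prod_append]

lemma HM_nil : HM [] = 0 := rfl

lemma HM_cons (l : ℕ) (ls : List ℕ) : HM (l :: ls) = ((l : ℝ) / 2 + (1 / 2) ^ (l + 1)) + HM ls := by
  simp only [HM, List.map_cons, List.sum_cons]

lemma HM_append (as bs : List ℕ) : HM (as ++ bs) = HM as + HM bs := by
  simp only [HM, List.map_append, List.sum_append]

end Pool.Agent.Lib_helper13.GC6
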